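import Pool.Agent.H14R3.KK.Defs
/-! Task INVO of project KK (MP_d47e08_pr): the invariants after an opening step. -/
set_option autoImplicit false
open MeasureTheory ProbabilityTheory Filter Topology
namespace KK14

namespace INVOx

theorem occ_add {n r : ℕ} (O : Sub n r → ℕ) (S : Sub n r) (x : Fin n) :
    occ (O + Pi.single S 1) x = occ O x + if x ∈ S.1 then 1 else 0 := by
  classical
  unfold occ
  have h1 : ∀ T : Sub n r, (if x ∈ T.1 then (O + Pi.single S 1 : Sub n r → ℕ) T else 0) =
      (if x ∈ T.1 then O T else 0) + if x ∈ T.1 then (Pi.single S 1 : Sub n r → ℕ) T else 0 := by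
    intro T
    by_cases h : x ∈ T.1
    · simp only [if_pos h, Pi.add_apply]
    · simp only [if_neg h]
  simp only [h1]
  rw [Finset.sum_add_distrib]
  congr 1
  rw [Finset.sum_eq_single S]
  · simp
  · intro T _ hT
    by_cases h : x ∈ T.1
    · rw [if_pos h, Pi.single_eq_of_ne hT]
    · rw [if_neg h]
  · intro h
    exact absurd (Finset.mem_univ S) h

theorem card_half {n l q : ℕ} (I K : Sub n l) (h : (symmDiff I.1 K.1).card = 2 * q) :
    (K.1 \ I.1).card = q := by
  have e : symmDiff I.1 K.1 = (I.1 \ K.1) ∪ (K.1 \ I.1) := rfl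
  have hd : Disjoint (I.1 \ K.1) (K.1 \ I.1) := by
    rw [Finset.disjoint_left]
    intro x hx hy
    exact (Finset.mem_sdiff.1 hx).2 (Finset.mem_sdiff.1 hy).1
  rw [e, Finset.card_union_of_disjoint hd] at h
  have h1 := Finset.card_sdiff_add_card_inter I.1 K.1
  have h2 := Finset.card_sdiff_add_card_inter K.1 I.1
  rw [Finset.inter_comm K.1 I.1] at h2
  have h3 := I.2
  have h4 := K.2
  omega

end INVOx

open INVOx in
theorem INVO (n q l : ℕ) (I K : Sub n l) (O : Sub n (2 * q) → ℕ) (V : Finset (Fin n))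
    (b : Fin n → ℕ) (hI : Inv I.1 O V b) (hS : (symmDiff I.1 K.1).card = 2 * q) :
    Inv K.1 (O + Pi.single ⟨symmDiff I.1 K.1, hS⟩ 1) (V ∪ K.1)
      (fun x => b x + if x ∈ (K.1 \ I.1) ∩ V then 1 else 0) ∧
    ∑ x, (b x + if x ∈ (K.1 \ I.1) ∩ V then 1 else 0) = ∑ x, b x + ((K.1 \ I.1) ∩ V).card ∧
    (V ∪ K.1).card ≤ V.card + q ∧
    ∑ S, (O + Pi.single ⟨symmDiff I.1 K.1, hS⟩ 1 : Sub n (2 * q) → ℕ) S = ∑ S, O S + 1 := by
  classical
  refine ⟨⟨Finset.subset_union_right, ?_, ?_, ?_⟩, ?_, ?_, ?_⟩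
  · intro x hx
    rw [Finset.mem_union, not_or] at hx
    rw [occ_add, hI.out x hx.1, if_neg]
    rw [Finset.mem_symmDiff]
    rintro (h | h)
    · exact hx.1 (hI.sub h.1)
    · exact hx.2 h.1
  · intro x hx
    rw [occ_add]
    by_cases hxI : x ∈ I.1
    · rw [if_neg (by rw [Finset.mem_symmDiff]; tauto), if_neg (by simp [hxI])]
      have := hI.pres x hxI
      omega
    · rw [if_pos (by rw [Finset.mem_symmDiff]; tauto)]
      by_cases hxV : x ∈ V
      · rw [if_pos (by simp [hxI, hx, hxV])]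
        have := hI.abse x hxI
        omega
      · rw [if_neg (by simp [hxV]), hI.out x hxV]
        omega
  · intro x hx
    rw [occ_add, if_neg (by simp [hx] : x ∉ (K.1 \ I.1) ∩ V)]
    by_cases hxI : x ∈ I.1
    · have := hI.pres x hxI
      rw [if_pos (by rw [Finset.mem_symmDiff]; tauto)]
      omega
    · have := hI.abse x hxI
      rw [if_neg (by rw [Finset.mem_symmDiff]; tauto)]
      omega
  · rw [Finset.sum_add_distrib]
    congr 1
    rw [Finset.sum_ite_mem, Finset.univ_inter, Finset.sum_const, smul_eq_mul, mul_one]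
  · have h1 : V ∪ K.1 = V ∪ (K.1 \ V) := by simp
    have h2 : (K.1 \ V).card ≤ q := by
      rw [← card_half I K hS]
      exact Finset.card_le_card (Finset.sdiff_subset_sdiff (Finset.Subset.refl _) hI.sub)
    rw [h1]
    exact (Finset.card_union_le _ _).trans (Nat.add_le_add_left h2 _)
  · simp only [Pi.add_apply]
    rw [Finset.sum_add_distrib]
    congr 1
    rw [Finset.sum_pi_single']
    simp
end KK14
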