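import Pool.Agent.H14R3.KK.Defs
import Pool.Agent.H14R3.KK.S.COUNT
import Pool.Agent.H14R3.KK.S.CLOSEC
import Pool.Agent.H14R3.KK.S.INVO
import Pool.Agent.H14R3.KK.S.INVC
/-! Task PATHB of project KK (MP_d47e08_pr): the bound for the weighted paths. -/
set_option autoImplicit false
open MeasureTheory ProbabilityTheory Filter Topology
namespace KK14

namespace PATHBx

theorem PP_pos {n q l : ℕ} (hl : q ≤ l) (hn : 1 ≤ n) : 0 < PP n q l := by
  unfold PP
  have h1 : (0 : ℝ) < (l.choose q : ℝ) := by exact_mod_cast Nat.choose_pos hl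
  have h2 : (0 : ℝ) < (n : ℝ) := by exact_mod_cast hn
  have h3 : (0 : ℝ) < (q.factorial : ℝ) := by exact_mod_cast q.factorial_pos
  positivity

theorem TH_one {n q l K : ℕ} : 1 ≤ TH n q l K := by
  unfold TH
  apply one_le_pow₀
  have : 0 ≤ Real.exp (2 * K / l) * (l + q * K) / n := by positivity
  linarith

end PATHBx

open PATHBx in
theorem PATHB (n q l K : ℕ) (hq : 1 ≤ q) (hl : q ≤ l) (hn : 1 ≤ n) :
    ∀ k ≤ K, ∀ (I J : Sub n l) (O : Sub n (2 * q) → ℕ) (V : Finset (Fin n)) (b : Fin n → ℕ),
      Inv I.1 O V b → V.card + q * k ≤ l + q * K →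
      w n (2 * q) l k I J O ≤
        (2 * √(PP n q l * (l / q)) * TH n q l K) ^ k * √((l / q) / PP n q l) ^ (∑ S, O S) *
          Real.exp (2 * (∑ x, (b x : ℝ)) * k / l) := by
  have hP := PP_pos (n := n) hl hn
  have hT := TH_one (n := n) (q := q) (l := l) (K := K)
  have hq0 : (0 : ℝ) < q := by exact_mod_cast hq
  have hl0 : (0 : ℝ) < l := by exact_mod_cast (lt_of_lt_of_le hq hl)
  have hn0 : (0 : ℝ) < n := by exact_mod_cast hn
  have hQ : (0 : ℝ) < l / q := by positivity
  set P := PP n q l with hPd
  set T := TH n q l K with hTd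
  set Q : ℝ := (l : ℝ) / q with hQd
  set R := √(Q / P) with hR
  set s := √(P * Q) with hs
  have hR0 : 0 < R := Real.sqrt_pos.2 (by positivity)
  have hs0 : 0 < s := Real.sqrt_pos.2 (by positivity)
  have hT0 : 0 < T := by linarith
  have hRP : R * P = s := by
    rw [hR, hs]
    have h1 : P * Q = Q / P * P ^ 2 := by field_simp
    rw [h1, Real.sqrt_mul (by positivity), Real.sqrt_sq hP.le]
  have hRs : R * s = Q := by
    rw [hR, hs, ← Real.sqrt_mul (by positivity)]
    have h1 : Q / P * (P * Q) = Q ^ 2 := by field_simp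
    rw [h1, Real.sqrt_sq hQ.le]
  set A := 2 * s * T with hA
  have hA0 : 0 < A := by positivity
  intro k
  induction k with
  | zero =>
    intro _ I J O V b _ _
    simp only [w, pow_zero, one_mul, Nat.cast_zero, mul_zero, zero_div, Real.exp_zero, mul_one]
    split_ifs with h
    · rw [h.2]
      simp
    · positivity
  | succ k ih =>
    intro hk I J O V b hI hV
    set B : ℝ := ∑ x, (b x : ℝ) with hB
    have hB0 : 0 ≤ B := Finset.sum_nonneg fun x _ => Nat.cast_nonneg _
    set h := ∑ S, O S with hh
    set y : ℝ := Real.exp (2 * K / l) with hy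
    set E : ℝ := Real.exp (2 * B * k / l) with hE
    set C1 : ℝ := A ^ k * R ^ (h + 1) * E with hC1
    set C2 : ℝ := A ^ k * R ^ (h - 1) * E with hC2
    have hC10 : 0 ≤ C1 := by positivity
    have hC20 : 0 ≤ C2 := by positivity
    have hterm : ∀ K' : Sub n l, (if h' : (symmDiff I.1 K'.1).card = 2 * q then
        w n (2 * q) l k K' J (O + Pi.single ⟨symmDiff I.1 K'.1, h'⟩ 1) +
          (O ⟨symmDiff I.1 K'.1, h'⟩ : ℝ) *
            w n (2 * q) l k K' J (O - Pi.single ⟨symmDiff I.1 K'.1, h'⟩ 1)
      else 0) ≤ C1 * (if (symmDiff I.1 K'.1).card = 2 * q then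
        y ^ ((K'.1 \ I.1) ∩ V).card else 0) +
        C2 * (if h' : (symmDiff I.1 K'.1).card = 2 * q then
          (O ⟨symmDiff I.1 K'.1, h'⟩ : ℝ) else 0) := by
      intro K'
      by_cases h' : (symmDiff I.1 K'.1).card = 2 * q
      · rw [dif_pos h', if_pos h', dif_pos h']
        refine add_le_add ?_ ?_
        · obtain ⟨i1, i2, i3, i4⟩ := INVO n q l I K' O V b hI h'
          have hcard : (V ∪ K'.1).card + q * k ≤ l + q * K := by
            have : q * (k + 1) = q * k + q := by ring
            omega
          have h1 := ih (by omega) K' J _ _ _ i1 hcard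
          refine h1.trans ?_
          rw [i4]
          have e1 : (∑ x, ((b x + if x ∈ (K'.1 \ I.1) ∩ V then 1 else 0 : ℕ) : ℝ)) =
              B + (((K'.1 \ I.1) ∩ V).card : ℝ) := by
            rw [hB]
            exact_mod_cast i2
          rw [e1]
          set j := ((K'.1 \ I.1) ∩ V).card with hj
          have e2 : Real.exp (2 * (B + (j : ℝ)) * k / l) ≤ E * y ^ j := by
            rw [hE, hy, ← Real.exp_nat_mul, ← Real.exp_add]
            apply Real.exp_le_exp.2
            have hkK : (k : ℝ) ≤ K := by exact_mod_cast (by omega : k ≤ K)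
            have : 2 * (B + (j : ℝ)) * k / l = 2 * B * k / l + (j : ℝ) * (2 * k / l) := by ring
            rw [this]
            have h3 : (2 * (k : ℝ) / l) ≤ 2 * K / l := by gcongr
            have h4 : (0 : ℝ) ≤ j := Nat.cast_nonneg _
            nlinarith
          calc A ^ k * R ^ (h + 1) * Real.exp (2 * (B + (j : ℝ)) * k / l)
              ≤ A ^ k * R ^ (h + 1) * (E * y ^ j) :=
                mul_le_mul_of_nonneg_left e2 (by positivity)
            _ = C1 * y ^ j := by rw [hC1]; ring
        · by_cases hO : O ⟨symmDiff I.1 K'.1, h'⟩ = 0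
          · rw [hO]
            simp
          · obtain ⟨i1, i2⟩ := INVC n q l I K' O V b hI h' hO
            have hcard : V.card + q * k ≤ l + q * K := by
              have : q * (k + 1) = q * k + q := by ring
              omega
            have h1 := ih (by omega) K' J _ _ _ i1 hcard
            have e1 : ∑ S, (O - Pi.single ⟨symmDiff I.1 K'.1, h'⟩ 1 : Sub n (2 * q) → ℕ) S =
                h - 1 := by
              omega
            rw [e1] at h1
            rw [mul_comm C2]
            exact mul_le_mul_of_nonneg_left h1 (Nat.cast_nonneg _)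
      · rw [dif_neg h', if_neg h', dif_neg h', mul_zero, mul_zero, add_zero]
    have hsum : w n (2 * q) l (k + 1) I J O ≤
        C1 * (∑ K' : Sub n l, if (symmDiff I.1 K'.1).card = 2 * q then
          y ^ ((K'.1 \ I.1) ∩ V).card else 0) +
        C2 * ∑ K' : Sub n l, (if h' : (symmDiff I.1 K'.1).card = 2 * q then
          (O ⟨symmDiff I.1 K'.1, h'⟩ : ℝ) else 0) := by
      rw [Finset.mul_sum, Finset.mul_sum, ← Finset.sum_add_distrib]
      simp only [w]
      exact Finset.sum_le_sum fun K' _ => hterm K'
    have hy0 : 0 ≤ y := (Real.exp_pos _).le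
    have hcount := COUNT n q l I V y hy0
    have hclose := CLOSEC n q l I O b (fun x hx => hI.pres x hx)
    set Sc : ℝ := ∑ K' : Sub n l, (if h' : (symmDiff I.1 K'.1).card = 2 * q then
          (O ⟨symmDiff I.1 K'.1, h'⟩ : ℝ) else 0) with hSc
    set So : ℝ := ∑ K' : Sub n l, (if (symmDiff I.1 K'.1).card = 2 * q then
          y ^ ((K'.1 \ I.1) ∩ V).card else 0) with hSo
    have hE1 : 1 ≤ Real.exp (2 * B / l) := Real.one_le_exp (by positivity)
    have hE0 : 0 < E := Real.exp_pos _
    have hEE : Real.exp (2 * B * ((k + 1 : ℕ) : ℝ) / l) = E * Real.exp (2 * B / l) := by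
      rw [hE, ← Real.exp_add]
      congr 1
      push_cast
      ring
    -- openings
    have hopen : C1 * So ≤ A ^ k * R ^ h * (E * Real.exp (2 * B / l)) * (s * T) := by
      have h1 : So ≤ P * T := by
        refine hcount.trans ?_
        have h2 : (n : ℝ) + y * V.card ≤ n * (1 + y * (l + q * K) / n) := by
          have h3 : (V.card : ℝ) ≤ l + q * K := by
            have : V.card ≤ l + q * K := by
              have : q * (k + 1) = q * k + q := by ring
              omega
            exact_mod_cast this
          have h4 : (n : ℝ) * (1 + y * (l + q * K) / n) = n + y * (l + q * K) := by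
            field_simp
          rw [h4]
          have := mul_le_mul_of_nonneg_left h3 hy0
          linarith
        have h5 : ((n : ℝ) + y * V.card) ^ q ≤ (n : ℝ) ^ q * T := by
          rw [hTd, TH, ← mul_pow]
          exact pow_le_pow_left₀ (by positivity) h2 q
        rw [hPd, PP]
        have h6 : (l.choose q : ℝ) * (((n : ℝ) + y * V.card) ^ q / q.factorial) ≤
            (l.choose q : ℝ) * (((n : ℝ) ^ q * T) / q.factorial) := by
          gcongr
        refine h6.trans (le_of_eq ?_)
        ring
      calc C1 * So ≤ C1 * (P * T) := mul_le_mul_of_nonneg_left h1 hC10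
        _ = A ^ k * R ^ h * E * ((R * P) * T) := by rw [hC1, pow_succ]; ring
        _ = A ^ k * R ^ h * E * (s * T) := by rw [hRP]
        _ ≤ A ^ k * R ^ h * (E * Real.exp (2 * B / l)) * (s * T) := by
            have h7 : E ≤ E * Real.exp (2 * B / l) := le_mul_of_one_le_right hE0.le hE1
            gcongr
    -- closings
    have hcl : C2 * Sc ≤ A ^ k * R ^ h * (E * Real.exp (2 * B / l)) * (s * T) := by
      have hSc1 : Sc ≤ Q * Real.exp (2 * B / l) := by
        have h1 : Sc ≤ (l + 2 * B) / q := by
          rw [le_div_iff₀ hq0, mul_comm]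
          exact hclose
        refine h1.trans ?_
        have h2 : (l + 2 * B) / q = Q * (2 * B / l + 1) := by
          rw [hQd]
          field_simp
          ring
        rw [h2]
        exact mul_le_mul_of_nonneg_left (Real.add_one_le_exp _) hQ.le
      rcases Nat.eq_zero_or_pos h with h0 | h0
      · have hO : ∀ S, O S = 0 := by
          intro S
          have := Finset.sum_eq_zero_iff.1 (hh.symm.trans h0) S (Finset.mem_univ S)
          exact this
        have : Sc = 0 := by
          rw [hSc]
          refine Finset.sum_eq_zero fun K' _ => ?_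
          split_ifs with h'
          · rw [hO]
            exact Nat.cast_zero
          · rfl
        rw [this, mul_zero]
        positivity
      · obtain ⟨h'', hh''⟩ : ∃ h'', h = h'' + 1 := ⟨h - 1, by omega⟩
        calc C2 * Sc ≤ C2 * (Q * Real.exp (2 * B / l)) := mul_le_mul_of_nonneg_left hSc1 hC20
          _ = A ^ k * R ^ h * (E * Real.exp (2 * B / l)) * s := by
              rw [hC2, ← hRs, hh'', Nat.add_sub_cancel, pow_succ]
              ring
          _ ≤ A ^ k * R ^ h * (E * Real.exp (2 * B / l)) * (s * T) := by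
              have h7 : s ≤ s * T := le_mul_of_one_le_right hs0.le hT
              gcongr
    rw [hEE]
    calc w n (2 * q) l (k + 1) I J O ≤ C1 * So + C2 * Sc := hsum
      _ ≤ A ^ k * R ^ h * (E * Real.exp (2 * B / l)) * (s * T) +
          A ^ k * R ^ h * (E * Real.exp (2 * B / l)) * (s * T) := add_le_add hopen hcl
      _ = A ^ (k + 1) * R ^ h * (E * Real.exp (2 * B / l)) := by
          rw [pow_succ, hA]
          ring
end KK14
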