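import Pool.Agent.H14R3.KK.Defs
import Pool.Agent.H14R3.KK.S.FINB
import Pool.Agent.H14R3.KK.S.POSB
/-! Task RHOB of project KK (MP_d47e08_pr): `rho ≤ 1` below the threshold for `r = 2`. -/
set_option autoImplicit false
open MeasureTheory ProbabilityTheory Filter Topology
namespace KK14

namespace RHOBx

/-- the upper bound of the ratio tends to `1` -/
theorem lim_u (c : ℝ) :
    Tendsto (fun n : ℕ => (1 : ℝ) + 4 * √(c * (1 / √(n : ℝ)))) atTop (𝓝 1) := by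
  have h1 : Tendsto (fun n : ℕ => 1 / √(n : ℝ)) atTop (𝓝 0) := by
    have : Tendsto (fun n : ℕ => √(n : ℝ)) atTop atTop :=
      Real.tendsto_sqrt_atTop.comp tendsto_natCast_atTop_atTop
    exact (tendsto_inv_atTop_zero.comp this).congr fun n => (one_div _).symm
  have h2 : Tendsto (fun n : ℕ => √(c * (1 / √(n : ℝ)))) atTop (𝓝 (√(c * 0))) :=
    (Real.continuous_sqrt.tendsto _).comp (h1.const_mul c)
  have h3 := (h2.const_mul 4).const_add 1
  simpa using h3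

theorem lam_sq {mu : ℝ} {n : ℕ} (hn : 1 ≤ n) :
    (n : ℝ) * (mu * (n : ℝ) ^ (-((2 : ℕ) : ℝ) / 4)) ^ 2 = mu ^ 2 := by
  have hn0 : (0 : ℝ) < n := by exact_mod_cast hn
  have e : ((n : ℝ) ^ (-((2 : ℕ) : ℝ) / 4)) ^ 2 = (n : ℝ)⁻¹ := by
    rw [← Real.rpow_natCast, ← Real.rpow_mul hn0.le]
    have : (-((2 : ℕ) : ℝ) / 4) * ((2 : ℕ) : ℝ) = -1 := by norm_num
    rw [this, Real.rpow_neg_one]
  rw [mul_pow, e]
  field_simp

end RHOBx

open RHOBx in
theorem RHOB (l : ℕ) (hl : 1 ≤ l) (mu : ℝ) (h0 : 0 ≤ mu) (h1 : mu < 1) : rho 2 l mu ≤ 1 := by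
  have hmu : mu ^ 2 < 1 := by nlinarith
  set κ : ℝ := √(1 - mu ^ 2) with hκ
  have hκ0 : 0 < κ := Real.sqrt_pos.2 (by linarith)
  have hl0 : (0 : ℝ) < l := by exact_mod_cast hl
  set c : ℝ := 32 * l / κ with hc
  have hc0 : 0 < c := by positivity
  have hev : ∀ᶠ n : ℕ in atTop,
      ((Elm n 2 l (mu * (n : ℝ) ^ (-((2 : ℕ) : ℝ) / 4)) / Elm n 2 l 0 : ℝ) : EReal) ≤
        (((1 : ℝ) + 4 * √(c * (1 / √(n : ℝ))) : ℝ) : EReal) := by
    filter_upwards [eventually_ge_atTop (2 * l)] with n hn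
    rw [EReal.coe_le_coe_iff]
    have hn1 : 1 ≤ n := by omega
    have hn0 : (0 : ℝ) < n := by exact_mod_cast hn1
    set lam := mu * (n : ℝ) ^ (-((2 : ℕ) : ℝ) / 4) with hlam
    have hls : (n : ℝ) * lam ^ 2 = mu ^ 2 := lam_sq hn1
    have hF := FINB n l hn1 (by omega) lam (by rw [hls]; exact hmu)
    rw [hls] at hF
    have hP := POSB n 1 l le_rfl (by omega)
    rw [Nat.choose_one_right, Nat.choose_one_right] at hP
    have hP' : (1 / 4 : ℝ) * √((l : ℝ) * ((n - l : ℕ) : ℝ)) ≤ Elm n 2 l 0 := hP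
    set E0 := Elm n 2 l 0 with hE0
    have hnl : (n : ℝ) / 2 ≤ ((n - l : ℕ) : ℝ) := by
      have : n ≤ 2 * (n - l) := by omega
      have h2 : (n : ℝ) ≤ 2 * ((n - l : ℕ) : ℝ) := by exact_mod_cast this
      linarith
    have hD : (1 / 4 : ℝ) * √((l : ℝ) * (n / 2)) ≤ E0 := by
      refine le_trans ?_ hP'
      gcongr
    have hD0 : 0 < √((l : ℝ) * (n / 2)) := Real.sqrt_pos.2 (by positivity)
    have hE0p : 0 < E0 := lt_of_lt_of_le (by positivity) hD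
    have hsn : 0 < √(n : ℝ) := Real.sqrt_pos.2 hn0
    have hX : √(16 * (l : ℝ) ^ 2 * √n * (1 / κ)) =
        √(c * (1 / √(n : ℝ))) * √((l : ℝ) * (n / 2)) := by
      rw [← Real.sqrt_mul (by positivity)]
      congr 1
      rw [hc]
      have hs2 : (n : ℝ) = √(n : ℝ) * √(n : ℝ) := (Real.mul_self_sqrt hn0.le).symm
      field_simp
      nlinarith [hs2]
    rw [← hκ] at hF
    rw [hX] at hF
    rw [div_le_iff₀ hE0p]
    have h5 : √(c * (1 / √(n : ℝ))) * √((l : ℝ) * (n / 2)) ≤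
        4 * √(c * (1 / √(n : ℝ))) * E0 := by
      have h6 : 0 ≤ √(c * (1 / √(n : ℝ))) := Real.sqrt_nonneg _
      have h7 : √((l : ℝ) * (n / 2)) ≤ 4 * E0 := by linarith
      calc √(c * (1 / √(n : ℝ))) * √((l : ℝ) * (n / 2)) ≤ √(c * (1 / √(n : ℝ))) * (4 * E0) :=
            mul_le_mul_of_nonneg_left h7 h6
        _ = _ := by ring
    linarith
  have hlim : Tendsto (fun n : ℕ => (((1 : ℝ) + 4 * √(c * (1 / √(n : ℝ))) : ℝ) : EReal)) atTop
      (𝓝 ((1 : ℝ) : EReal)) := (continuous_coe_real_ereal.tendsto _).comp (lim_u c)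
  unfold rho
  calc liminf (fun n : ℕ =>
      ((Elm n 2 l (mu * (n : ℝ) ^ (-((2 : ℕ) : ℝ) / 4)) / Elm n 2 l 0 : ℝ) : EReal)) atTop
      ≤ liminf (fun n : ℕ => (((1 : ℝ) + 4 * √(c * (1 / √(n : ℝ))) : ℝ) : EReal)) atTop :=
        liminf_le_liminf hev
    _ = ((1 : ℝ) : EReal) := hlim.liminf_eq
    _ = 1 := EReal.coe_one

theorem MUB (l : ℕ) (hl : 1 ≤ l) : 1 ≤ muN 2 l := by
  unfold muN
  apply le_sInf
  rintro _ ⟨mu, ⟨h0, h1⟩, rfl⟩
  by_contra hcon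
  push Not at hcon
  have h2 : mu < 1 := by
    have : ((mu : ℝ) : EReal) < ((1 : ℝ) : EReal) := by rw [EReal.coe_one]; exact hcon
    exact EReal.coe_lt_coe_iff.1 this
  exact absurd (RHOB l hl mu h0 h2) (not_le.2 h1)
end KK14
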